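import Pool.Agent.Q73.RH.Stm

/-!
# Project RH: measurability, integrability, rotation invariance
-/

set_option autoImplicit false

open MeasureTheory

namespace Pool.Agent.Q162.RH

open Pool.Agent.Q73.RH

theorem B_closed : IsClosed B := by
  unfold B
  exact isClosed_le (by fun_prop) continuous_const

theorem B_meas : MeasurableSet B := B_closed.measurableSet

theorem B_sub : B ⊆ Metric.closedBall (0 : V) 1 := by
  intro z hz
  rw [mem_closedBall_zero_iff, pi_norm_le_iff_of_nonneg zero_le_one]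
  intro i
  have h1 : ‖z i‖ ^ 2 ≤ ∑ j, ‖z j‖ ^ 2 :=
    Finset.single_le_sum (f := fun j => ‖z j‖ ^ 2) (fun j _ => sq_nonneg _) (Finset.mem_univ i)
  have h2 : ‖z i‖ ^ 2 ≤ 1 := h1.trans hz
  exact (sq_le_one_iff₀ (norm_nonneg _)).1 h2

theorem B_fin : volume B < ⊤ :=
  lt_of_le_of_lt (measure_mono B_sub) (isCompact_closedBall (0 : V) 1).measure_lt_top

theorem s_meas : Measurable s := by
  unfold s
  rw [measurable_pi_iff]
  intro i
  refine (measurable_pi_apply i).div ?_
  refine Complex.measurable_ofReal.comp ?_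
  refine Real.continuous_sqrt.measurable.comp ?_
  exact Continuous.measurable (by fun_prop)

theorem s_le (z : V) (i : Fin 2) : ‖s z i‖ ≤ 1 := by
  unfold s
  rw [norm_div, Complex.norm_real, Real.norm_eq_abs, abs_of_nonneg (Real.sqrt_nonneg _)]
  apply div_le_one_of_le₀ _ (Real.sqrt_nonneg _)
  apply Real.le_sqrt_of_sq_le
  exact Finset.single_le_sum (f := fun j => ‖z j‖ ^ 2) (fun j _ => sq_nonneg _) (Finset.mem_univ i)

theorem s_zero : s 0 = 0 := by
  funext i
  simp [s]

theorem s_mem {z : V} (hz : z ≠ 0) : s z ∈ S := by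
  have h0 : 0 < ∑ j, ‖z j‖ ^ 2 := by
    apply lt_of_le_of_ne (Finset.sum_nonneg fun j _ => sq_nonneg _)
    intro h
    apply hz
    funext j
    have h1 := (Finset.sum_eq_zero_iff_of_nonneg (fun j _ => sq_nonneg ‖z j‖)).1 h.symm j
      (Finset.mem_univ j)
    simpa using h1
  show ∑ i, ‖s z i‖ ^ 2 = 1
  unfold s
  simp_rw [norm_div, Complex.norm_real, Real.norm_eq_abs, abs_of_nonneg (Real.sqrt_nonneg _),
    div_pow, Real.sq_sqrt h0.le]
  rw [← Finset.sum_div, div_self h0.ne']

theorem int_cont {E : Type} [NormedAddCommGroup E] [MeasurableSpace E] [BorelSpace E]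
    [SecondCountableTopology E] (g : V → E) (hg : Continuous g) :
    IntegrableOn (fun z => g (s z)) B := by
  obtain ⟨M, hM⟩ := (isCompact_closedBall (0 : V) 1).exists_bound_of_continuousOn hg.continuousOn
  refine Measure.integrableOn_of_bounded (M := M) B_fin.ne
    (hg.measurable.comp s_meas).aestronglyMeasurable (Filter.Eventually.of_forall fun z => ?_)
  apply hM
  rw [mem_closedBall_zero_iff, pi_norm_le_iff_of_nonneg zero_le_one]
  exact s_le z

theorem int_eval (P : MvPolynomial (Fin 2) ℂ) :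
    IntegrableOn (fun z => MvPolynomial.eval (s z) P) B :=
  int_cont (fun x => MvPolynomial.eval x P) (MvPolynomial.continuous_eval P)

/-- the rotation preserves the measure -/
theorem rot_mp (u : Circle) : MeasurePreserving (fun z : V => (u : ℂ) • z) volume volume := by
  have h1 : ∀ _ : Fin 2, MeasurePreserving (fun z : ℂ => (u : ℂ) * z) volume volume := by
    intro _
    exact (rotation u).measurePreserving
  exact volume_preserving_pi h1

theorem rot (u : Circle) (g : V → ℂ) : ∫ z in B, g ((u : ℂ) • z) = ∫ z in B, g z := by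
  have hu : (u : ℂ) ≠ 0 := Circle.coe_ne_zero u
  have h1 := (rot_mp u).setIntegral_preimage_emb (measurableEmbedding_const_smul₀ hu) g B
  rw [← h1]
  congr 2
  ext z
  show (∑ i, ‖z i‖ ^ 2 ≤ 1) ↔ (∑ i, ‖(u : ℂ) * z i‖ ^ 2 ≤ 1)
  simp_rw [norm_mul, Circle.norm_coe, one_mul]

theorem s_rot (u : Circle) (z : V) : s ((u : ℂ) • z) = (u : ℂ) • s z := by
  funext i
  unfold s
  simp only [Pi.smul_apply, smul_eq_mul, norm_mul, Circle.norm_coe, one_mul]
  rw [mul_div_assoc]

/-- If a function is multiplied by a factor other than one under a rotation then its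
integral vanishes. -/
theorem int_zero (u : Circle) (g : V → ℂ) (c : ℂ) (hc : c ≠ 1)
    (h : ∀ x, g ((u : ℂ) • x) = c * g x) : ∫ z in B, g (s z) = 0 := by
  have h1 := rot u (fun z => g (s z))
  have h2 : ∀ z, g (s ((u : ℂ) • z)) = c * g (s z) := fun z => by rw [s_rot, h]
  simp_rw [h2] at h1
  rw [integral_const_mul] at h1
  have h3 : (c - 1) * ∫ z in B, g (s z) = 0 := by rw [sub_mul, h1]; ring
  rcases mul_eq_zero.1 h3 with h4 | h4
  · exact absurd (sub_eq_zero.1 h4) hc
  · exact h4

/-- a root of `u^k = -1` -/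
theorem exists_root (k : ℕ) (hk : k ≠ 0) : ∃ u : Circle, (u : ℂ) ^ k = -1 := by
  refine ⟨Circle.exp (Real.pi / k), ?_⟩
  rw [Circle.coe_exp, ← Complex.exp_nat_mul]
  have hk' : (k : ℂ) ≠ 0 := Nat.cast_ne_zero.2 hk
  have h1 : (k : ℂ) * (((Real.pi / k : ℝ) : ℂ) * Complex.I) = Real.pi * Complex.I := by
    push_cast
    field_simp
  rw [h1, Complex.exp_pi_mul_I]

theorem prod_smul (u : Circle) (x : V) (d : Fin 2 →₀ ℕ) :
    ∏ i, ((u : ℂ) • x) i ^ d i = (u : ℂ) ^ (∑ i, d i) * ∏ i, x i ^ d i := by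
  simp only [Pi.smul_apply, smul_eq_mul, mul_pow]
  rw [Finset.prod_mul_distrib, Finset.prod_pow_eq_pow_sum]

end Pool.Agent.Q162.RH
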